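import Pool.Agent.U184.Fin2

set_option autoImplicit false

/-! # The strong monodromy conjecture for homogeneous ideals with a period

Let `g t j`, `t ∈ T`, `j ∈ κ t`, be forms of degree `δ t > 0` in `n = |σ|` variables, for every `t` not
all zero. Let `L_t` be the linear system which they span, `I_t` the ideal which they generate, and
let `L = ∏ t, L_t ^ a t` be spanned by the products of `a t` elements of the `L_t`.

Let `I = ∏ t, I_t ^ a t`, with the generators `prodFam`. Let `Y` be a log resolution of `I`, with the
components `E_i`, `i ∈ I`, let `k i` be the multiplicity of `E_i` in the relative canonical divisor and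
`m i t` the order of `I_t` along `E_i`; so `ν_i = k i + 1`, and the order of `I` along `E_i` is
`N_i = ∑ t, a t * m i t`.

The topological zeta function of `I`, computed on this resolution, is the sum `topZ` over the sets `J`
of components of `χ J ∏_{i ∈ J} 1 / (N_i s + ν_i)`, `χ J` the Euler characteristic of the stratum `E_J°`.

We may suppose that the resolution begins with the blow-up of the origin. The exceptional divisor
`E_0` has `ν_0 = n` and `N_0 = ∑ t, a t * δ t`. The number `-n / N_0` is known to be a root of the
Bernstein-Sato polynomial if `E_0` is a Rees divisor of the product of the ideals, that is, if the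
rational map from `ℙ^(n-1)` which is given by the forms in `L` is generically finite onto its image, or
if `n / N_0` is the log canonical threshold. Here the map can have fibres of positive dimension. The
theorem needs the condition `GoodSystem`:

there are integers `m, k ≥ 1` and a form `h` with `h ^ k ∈ L ^ m`, such that the class of
`dx_1 ∧ ... ∧ dx_n` in the cohomology group `H ^ n` of the complex `(Ω, d - dh ∧)` of polynomial
differential forms is not zero (`HasPeriod`; this group is isomorphic to the reduced cohomology group
`H ^ (n-1)` of the fibre `h = 1`).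

The condition `HasPeriod h` holds if the hypersurface `h = 0` in `ℙ^(n-1)` is smooth, of degree at least
`2` (`period_of_iso`), if `h` is positive on `ℝ ^ n` without the origin, in suitable linear coordinates
(`period_of_pos`, `period_linear`; the class is detected by the integral over `ℝ ^ n` of
`exp (-h) dx`), if `h` is the product of the variables (`period_prod`, `n ≥ 2`), and for sums of such
forms in separate variables (`period_sum`). So `GoodSystem` holds

* for all real systems without real base points (`RealSystem`; part (2) of the theorem): in suitable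
  linear coordinates the `g t j` are real on `ℝ ^ n`, and for each `t` with `a t > 0` they have no
  common zero in `ℝ ^ n` except the origin. Here `h = ∏ t, (∑_j (g t j) ^ 2) ^ a t ∈ L ^ 2`. Nothing is
  assumed about the complex base points, and about the singularities of the members;
* if the `f_j` define a smooth complete intersection in `ℙ^(n-1)` (`SmoothCI`; part (3) of the theorem),
  for the ideal `(f_j)` and all its powers, since by Bertini's theorem (`bert_exists`, with an
  algebraic proof) a general member of the linear system is smooth.

All the other `E_i` which occur have to be Rees divisors of the product of the ideals, or at least their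
numbers `-ν_i / N_i` have to be `-n / N_0` or to come from Rees divisors (`FromRees`). For a smooth
complete intersection of `r` forms `f_j` of degree `d ≥ 2` the resolution is the blow-up of the origin,
followed by the blow-up of the (smooth) strict transform of the cone `f_j = 0`, and for the `a`-th power
of the ideal the components are `E_0`, with `ν = n` and `N = a d`, and the second exceptional divisor,
with `ν = r` and `N = a`, which is a Rees divisor (part (3)). So all the conditions are satisfied, for
all `n`, `r`, `d`, `a`. More generally, for pairwise disjoint smooth `Z_i ⊂ ℙ^(n-1)` such that all the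
ideal sheaves of the `I_t` on `ℙ^(n-1)` are products of powers of the ideals of the `Z_i`, the
exceptional divisors over the cones of the `Z_i` are Rees divisors (`rees_of_smooth`).

The proof of the root `-n / N_0` (`root_per`): let `α = -n / N_0` and suppose that `b(α) ≠ 0`. The
functional equation gives polynomials `V_l` in `x` and variables `z_j` with
`b(α) Q ^ α = ∑_l ∂_{x_l} (V_l Q ^ (α - N))` for `Q = ∑ z_j p_j`, where the `p_j` are the products of
generators which span `L` (`stmAI`). If `Φ(z)` is any homogeneous function of degree `α`, then the
transformation `z ^ J Q ^ (α - |J|) ↦ (∂ ^ J Φ)(p)` is compatible with the derivations `∂_{x_l}`. For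
`Φ = G ^ (α / m)` with `G(p) = h ^ k` this gives `c h ^ (k α / m) = ∑_l ∂_{x_l} (W_l h ^ (k (α / m - N)))`
with a constant `c ≠ 0` (`mel`). A functional `Λ` with `Λ(∂_l q) = Λ(∂_l h q)` and `Λ(1) = 1` takes this
to `c Λ(h ^ N') = 0` for some `N'`, but `Λ(h ^ N') ≠ 0` by Euler's relation (`per_core`).

The other roots come from the library (`root_of_from`).
-/

namespace Pool.Agent.Results.MP_ee8c61_ag.PeriodSystems

open MvPolynomial Pool.Agent.W574.SM Pool.Agent.W574.HS Pool.Agent.TH192.DT Pool.Agent.Y231.RF
  Pool.Agent.Y228.RR Pool.Agent.U184

/-- **Q1 holds, and Q2 if the ratios differ.**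
(1) Let `b` satisfy a functional equation of the generators of `I = ∏ t, I_t ^ a t`, the `I_t`
generated by forms `g t j` of degree `δ t`, in particular let `b` be the Bernstein-Sato polynomial of
`I`, and let `Z = topZ` be the topological zeta function of `I`, computed on the resolution described
above (with arbitrary integers `χ J` in the place of the Euler characteristics of the strata). Assume
that `GoodSystem g a` holds, and that the `E_i` with `N_i > 0` satisfy `ConeOrRees`. Then every pole of
`Z` is a root of `b`. If the numbers `ν / N` of the components which meet (in a stratum with `χ J ≠ 0`)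
are different, then `b Z` is a polynomial.
(2) `GoodSystem` holds for real systems without real base points (`RealSystem`).
(3) If the forms `f_j`, `j ∈ κ`, of degree `d ≥ 2` define a smooth complete intersection (`SmoothCI`),
then `GoodSystem` holds for the `a`-th power of the ideal `(f_j)`, `a ≥ 1`, and the exceptional divisor
over the cone `f_j = 0`, with the numbers `ν = |κ|` and `N = a`, is a Rees divisor.

`ConeOrRees g δ a ν N`: `ν / N = n / N_0`, or `ν / N` comes from a Rees divisor (`FromRees`), that is,
`ν / N = (k_E + 1 + l) / N_E` for a Rees divisor `E` of the product of the ideals `I_t` with `a t ≠ 0`,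
where `k_E` is the multiplicity of `E` in the relative canonical divisor, `N_E` is the order of
`∏ t, I_t ^ a t` along `E`, and `l < N_E` is the order along `E` of some polynomial (for instance `1`,
with `l = 0`); the divisor is given by a formal chart at one of its points (`Chart`, `IsRees`). -/
theorem result :
    (∀ {σ T I : Type} [Fintype σ] [DecidableEq σ] [Fintype T] [DecidableEq T] [Fintype I]
      {κ : T → Type} [∀ t, Fintype (κ t)] [∀ t, DecidableEq (κ t)]
      (g : (t : T) → κ t → MvPolynomial σ ℂ) (δ : T → ℕ) (_ : ∀ t, 0 < δ t)
      (_ : ∀ t j, (g t j).IsHomogeneous (δ t)) (_ : ∀ t, ∃ j, g t j ≠ 0) (a : T → ℕ)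
      (_ : GoodSystem g a) (k : I → ℕ) (m : I → T → ℕ) (χ : Finset I → ℤ)
      (_ : ∀ i, 0 < ∑ t, a t * m i t → ConeOrRees g δ a (k i + 1) (∑ t, a t * m i t))
      (b : Polynomial ℂ) (_ : IsFunctionalEq (prodFam fun q : Σ t, Fin (a t) => g q.1) b),
      (∀ s₀ : ℂ, (topZ (fun i => k i + 1) (fun i => ∑ t, a t * m i t) χ).denom.eval s₀ = 0 →
        b.eval s₀ = 0) ∧
      ((∀ J, χ J ≠ 0 → ∀ i ∈ J, ∀ j ∈ J, i ≠ j → 0 < ∑ t, a t * m i t → 0 < ∑ t, a t * m j t →
          (k i + 1) * ∑ t, a t * m j t ≠ (k j + 1) * ∑ t, a t * m i t) →
        ∃ P : Polynomial ℂ, algebraMap (Polynomial ℂ) (RatFunc ℂ) b *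
          topZ (fun i => k i + 1) (fun i => ∑ t, a t * m i t) χ =
            algebraMap (Polynomial ℂ) (RatFunc ℂ) P)) ∧
    (∀ {σ T : Type} [Fintype σ] [DecidableEq σ] [Fintype T] [DecidableEq T]
      {κ : T → Type} [∀ t, Fintype (κ t)] [∀ t, DecidableEq (κ t)]
      (g : (t : T) → κ t → MvPolynomial σ ℂ) (δ : T → ℕ), (∀ t, 0 < δ t) →
      (∀ t j, (g t j).IsHomogeneous (δ t)) → (∀ t, ∃ j, g t j ≠ 0) → ∀ a : T → ℕ, (∃ t, a t ≠ 0) →
      RealSystem g a → GoodSystem g a) ∧
    ∀ {σ κ : Type} [Fintype σ] [DecidableEq σ] [Nonempty σ] [Fintype κ] [DecidableEq κ] [Nonempty κ]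
      (f : κ → MvPolynomial σ ℂ) (d : ℕ), 2 ≤ d → (∀ j, (f j).IsHomogeneous d) → SmoothCI f →
      ∀ a : ℕ, a ≠ 0 → GoodSystem (fun _ : Unit => f) (fun _ => a) ∧
        ∀ p : σ → ℂ, p ≠ 0 → (∀ j, eval p (f j) = 0) →
          FromRees (fun _ : Unit => f) (fun _ => a) 1 (Fintype.card κ) a := by
  refine ⟨?_, ?_, ?_⟩
  · intro σ T I _ _ _ _ _ κ _ _ g δ hδ hg hg0 a hG k m χ hE b hb
    exact sys_top_ideal g δ hδ hg hg0 a hG k m χ hE b hb
  · intro σ T _ _ _ _ κ _ _ g δ hδ hg hg0 a ha h
    exact real_good g δ hδ hg hg0 a ha h
  · intro σ κ _ _ _ _ _ _ f d hd hf H a ha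
    exact ⟨ci_good f d hd hf H a ha, fun p hp hfp => ci_rees f H a ha p hp hfp⟩

end Pool.Agent.Results.MP_ee8c61_ag.PeriodSystems
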