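import Pool.Agent.U184.Sys

set_option autoImplicit false

/-! # The strong monodromy conjecture for ideals of forms in three variables: systems with a good member

Here the `f_j` are forms of the same degree `d` in the three variables `x₀, x₁, x₂`, and `I = (f_j)`
is the ideal which they generate.

The candidate pole `-3/d` comes from the blow-up of `x₀ = x₁ = x₂ = 0`. It is known to be a root of
the Bernstein-Sato polynomial if three of the `f_j` are algebraically independent, and for many
systems composed with a pencil (for instance pencils of curves which meet transversally; see
`RootCond` in `Pool.Agent.N127.PB.CondDefs`). This file treats all systems which satisfy the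
following condition (`NRMember`):

there is a member `g` of the linear system spanned by the `f_j` or, more generally, a form `g = G(f)`,
where `G` is a form of degree `m ≥ 1` in the `f_j` (so that `g` has the degree `d m`), such that

* the curve `g = 0`, which may be reducible and non-reduced, has only weighted homogeneous
  singularities: at each singular point of the reduced curve, `g` is, in suitable formal
  coordinates, a weighted homogeneous polynomial, and its weighted degree `n` is such that
  `3 n / (d m)` is not an integer (`NRForm`); and
* there is no linear vector field `v` of trace zero with `v(g) = g` (`NoField`).

Nothing is assumed about the other members, and about the base points of the system; the curves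
may be tangent to each other there to any order, and have common singularities and common
components. If `3/d` is the log canonical threshold (for instance if `d ≥ 3` and some member is
smooth) then the root `-3/d` is known; here the singularities may be arbitrarily bad, as long as they
are weighted homogeneous and not resonant. Examples: systems of conics with a smooth member;
systems of quartics with a common ordinary triple point, or of quintics with a common ordinary
point of multiplicity 4, which have an irreducible member which is smooth at the other points and
has no vector field `v`; systems with fixed components of high multiplicities. For a point with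
`g = u ^ a v ^ b` in suitable coordinates, all weights `n = a w + b w'` are allowed, so that there is no
resonance if `d m` does not divide both `3 a` and `3 b`.

The proof of `b(-3/d) = 0` (`root_nr` in `Pool.Agent.U184.Core2`): let `α = -3/d` and suppose that
`b(α) ≠ 0`.

* The functional equation gives polynomials `V_l` in `x` and `y` with
  `b(α) F ^ α = ∑_l ∂_{x_l} (V_l F ^ (α - N))` for `F = ∑ y_j f_j` (`stmA`, `stmAI`).
* If `Φ(z)` is any homogeneous function of degree `α` of variables `z_j`, then the transformation
  `y ^ J F ^ (α - |J|) ↦ (∂ ^ J Φ)(f)` is compatible with the derivations `∂_{x_l}`. For `Φ = G ^ (α / m)`
  this gives `c g ^ (α / m) = ∑_l ∂_{x_l} (W_l g ^ (α / m - N))` with a constant `c ≠ 0` (`mel` in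
  `Pool.Agent.U184.Mel2`).
* So on the complement of the curve `g = 0` the form `g ^ (-3/(d m)) (x dy dz - y dx dz + z dx dy)` is
  the differential of a form with poles of some order along the curve. The order of the poles is
  lowered step by step (`core_nr`): locally at a singular point, this is a computation with the
  Euler vector field, which acts without the eigenvalue zero as `3 n / (d m)` is not an integer; the
  global step uses the exactness of the Koszul complex of `x, y, z`. At the end there is a form with
  poles of order one, which is given by a linear vector field `v` with `v(g) = g` and trace zero.

The other poles are treated with the library (`cone_main`): a functional equation of the ideal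
`(f_j)` gives one of the ideals `(f_j |_{x_i = 1})`, with the same `b`, and the contributions
of the points of the plane are regular at `s₀` if `b(s₀) ≠ 0`. -/

namespace Pool.Agent.Results.MP_ee8c61_ag.TernarySystems

open MvPolynomial Pool.Agent.W574.CN Pool.Agent.W574.SM Pool.Agent.U184

/-- Let `f_j` be forms of the same degree `d > 0` in three variables, let `b` be a polynomial which
satisfies a functional equation of the `f_j` (in particular the Bernstein-Sato polynomial of the
ideal `I = (f_j)`), and let `Z` be the topological zeta function of `I`.
Assume that there are a form `G` of degree `m ≥ 1` in variables `z_j` and `g = G(f)` (for `m = 1`: a
member `g` of the linear system spanned by the `f_j`), such that the plane curve `g = 0` (possibly not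
reduced) has only weighted homogeneous singularities, with weighted degrees `n` such that
`3 n / (d m)` is not an integer, and such that there is no linear vector field `v` of trace zero with
`v(g) = g` (`NRMember f d`).
Then every pole `s₀` of `Z` is a root of `b`. -/
theorem result {ι : Type} [Fintype ι] (f : ι → MvPolynomial (Fin 3) ℂ) (d : ℕ) (hd : 0 < d)
    (hf : ∀ j, (f j).IsHomogeneous d) (hg : NRMember f d) (b : Polynomial ℂ)
    (hb : IsFunctionalEq f b) (Z : RatFunc ℂ) (hZ : ConeZeta f d Z) (s₀ : ℂ)
    (hs₀ : Z.denom.eval s₀ = 0) : b.eval s₀ = 0 := by
  classical
  by_cases h3 : s₀ = -3 / d
  · rw [h3]
    exact root_nr_ideal f d hd hf b hb hg
  · exact cone_main f d hd hf b hb Z hZ s₀ hs₀ (Or.inl h3)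

end Pool.Agent.Results.MP_ee8c61_ag.TernarySystems
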